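import Pool.Agent.X60.GenTree3
import Pool.Agent.Results.MP_763321_co.ArcTransitive

/-!
# The Gyárfás–Sumner conjecture: adding graphs without large bicliques, and a reduction

All graphs are finite.  `D` is `K_{t,t}`-free if no `t` vertices are all adjacent to `t` others.

1. For every forest `F` and every `t` there are a forest `F'` and a function `f` such that for all
   graphs `G₁ ≤ G` (on the same vertices) for which `G \ G₁` is `K_{t,t}`-free: if `G` has no induced
   `F`, then `G₁` has no induced `F'` and `χ(G) ≤ f(ω(G)) χ(G₁)`.
2. Hence, if the conjecture holds for the graphs of a class, then it holds for all graphs obtained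
   from them by adding the edges of a `K_{t,t}`-free graph, for every `t`.
3. Reduction: for every `t ≥ 1` the conjecture holds for all graphs if (and only if) it holds for
   the graphs in which every edge is contained in an induced `K_{t,t}`.
4. For example the conjecture holds for arc-transitive graphs with added `K_{t,t}`-free graphs.
5. For every tree `T` and every `t` there is an `N` such that every `K_{t,t}`-free graph which
   contains the complete `N`-ary tree of depth `N` as a subgraph contains `T` as an induced
   subgraph.

Proof of 1 and 5.  Otherwise (compactness) there is a graph `H` on the finite words over `ℕ` in which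
every word `u` is adjacent to the words `n :: u`, no `t + 1` vertices have infinitely many common
neighbours, and some finite tree is not an induced subgraph.  Fix a nonprincipal ultrafilter on `ℕ`
and choose letters generically, one after the other.  Whether a generic word of length `j` is
adjacent to its suffix of length `i` depends only on `i` and `j`; this defines a graph on `ℕ` which
contains the path `0, 1, 2, …` and in which every `j` has at most `t` smaller neighbours.  It contains
arbitrarily long increasing induced paths `l₀ < l₁ < …` (shortest increasing paths to a large `D`).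
The tree is embedded vertex by vertex, a vertex at distance `i` from the first one to a generic
extension of length `l_i` of the image of its parent.  Two generic words none of which is a suffix
of the other are not adjacent, since otherwise `t + 1` vertices would have infinitely many common
neighbours.
-/

set_option autoImplicit false

namespace Pool.Agent.Results.MP_763321_co.AddedBicliqueFreeGraphs

open Pool.Agent.X60.GenTree
open Pool.Agent.Results.MP_763321_co.ArcTransitive (IsArcTransitive)

theorem result :
    -- (1) added `K_{t,t}`-free graphs
    (∀ (m : ℕ) (F : SimpleGraph (Fin m)), F.IsAcyclic → ∀ t : ℕ,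
      ∃ (m' : ℕ) (F' : SimpleGraph (Fin m')) (f : ℕ → ℕ), F'.IsAcyclic ∧
        ∀ (V : Type) [Finite V] (G G₁ : SimpleGraph V), G₁ ≤ G → BicliqueFree (G \ G₁) t →
          ¬ F.IsIndContained G → ¬ F'.IsIndContained G₁ ∧
            G.chromaticNumber ≤ (f G.cliqueNum : ℕ∞) * G₁.chromaticNumber) ∧
    -- (2) classes of graphs
    (∀ 𝒞 : (n : ℕ) → Set (SimpleGraph (Fin n)), GS 𝒞 → ∀ t : ℕ, GS (Added 𝒞 t)) ∧
    -- (3) reduction to the graphs in which every edge is in an induced `K_{t,t}`
    (∀ t : ℕ, 1 ≤ t → (GS (fun n => {G | ∀ u v : Fin n, G.Adj u v → InBiclique G t u v}) ↔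
      GS (fun _ => Set.univ))) ∧
    -- (4) arc-transitive graphs with an added `K_{t,t}`-free graph
    (∀ (m : ℕ) (F : SimpleGraph (Fin m)), F.IsAcyclic → ∀ t : ℕ, ∃ f : ℕ → ℕ,
      ∀ (V : Type) [Finite V] (G G₁ : SimpleGraph V), IsArcTransitive G₁ → G₁ ≤ G →
        BicliqueFree (G \ G₁) t → ¬ F.IsIndContained G → G.chromaticNumber ≤ f G.cliqueNum) ∧
    -- (5) trees as subgraphs
    (∀ (m : ℕ) (T : SimpleGraph (Fin m)), T.IsTree → ∀ t : ℕ, ∃ N : ℕ,
      ∀ (V : Type) (G : SimpleGraph V), BicliqueFree G t → (TN N).IsContained G →
        T.IsIndContained G) := by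
  refine ⟨fun m F hF t => added F hF t, gs_added, ?_, ?_, fun m T hT t => tree_subgraph T hT t⟩
  · intro t ht
    refine ⟨gs_of_core ht, ?_⟩
    intro h m F hF
    obtain ⟨f, hf⟩ := h m F hF
    exact ⟨f, fun n G _ => hf n G (Set.mem_univ _)⟩
  · intro m F hF t
    obtain ⟨m', F', f, hF', hf⟩ := added F hF t
    obtain ⟨g, hg⟩ := Pool.Agent.Results.MP_763321_co.ArcTransitive.result m' F' hF'
    refine ⟨fun k => f k * (Finset.range (k + 1)).sup g, ?_⟩
    intro V _ G G₁ hG₁ hle hfree hFG
    obtain ⟨h1, h2⟩ := hf _ G G₁ hle hfree hFG
    have h3 := hg V G₁ (Or.inl hG₁) h1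
    refine h2.trans ?_
    push_cast
    gcongr
    refine h3.trans ?_
    exact_mod_cast le_sup_range g (cliqueNum_mono hle)

end Pool.Agent.Results.MP_763321_co.AddedBicliqueFreeGraphs
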