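import Pool.Agent.X228.GS.Grp
import Pool.Agent.X60.GenTree3

/-!
# The Gyárfás–Sumner conjecture for edge-transitive graphs and graphs with comparable codegrees

For every forest `F` there is a function `f` such that `χ(G) ≤ f(ω(G))` for every finite graph `G`
without induced `F` of one of the following kinds (`f` also depends on `r`, `s`, `K`):

1. the arcs of `G` can be coloured so that the arcs of the same colour see comparable codegrees, up
   to the factor `K`, and each colour occurs on at least `1 / r` of the arcs at a vertex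
   (`IsUniform`);
2. up to the factor `K`, all degrees, all codegrees of adjacent vertices and all codegrees of vertices
   at distance two are the same, and so are the numbers of the continuations of an arc to vertices at
   distance two (`IsApproxAmplyRegular`);
3. the automorphism group has at most `s` orbits of vertices, and for adjacent `u`, `v` in the same
   orbit the stabiliser of `u` moves `v` to at least `1 / r` of the neighbours of `u` in the orbit of
   `u` (`HasFewOrbits`);
4. `G` is edge-transitive.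

The same is true if the edges of a `K_{t,t}`-free graph are added to such a graph.

Proof of 1.  Let `d` be the maximum degree, call `z`, `w` a light pair if they are not adjacent and
have less than `δ d` common neighbours, and write `i → j` if a positive proportion `λ` of the
continuations of colour `j` of the arcs of colour `i` lead to light pairs.

* If `i → j` and `j → i` (possibly `i = j`), then `F` is built vertex by vertex as an induced
  subgraph, by light continuations only, as in the starting result `ArcTransitive`.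
* Otherwise `i → i` fails for all `i`, and `i → j` fails, say.  Fix a vertex `x`.  For every `z` with
  `x z` of colour `i`, almost all `w` with `z w` of colour `i` or `j` are in the set `W` of the `O(d)`
  vertices which are near to `x` (equal, adjacent or not light).  Counting the triples `z, w, w'` with
  `w, w' ∈ W` shows that for almost all pairs `w`, `w'` of neighbours of a vertex `z` with `z w` of
  colour `i` and `z w'` of colour `j`, `w` and `w'` have at least `δ' d` common neighbours.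
* So almost all walks of length two are heavy, and the packing lemma for set systems of bounded
  Vapnik–Chervonenkis dimension gives the colouring, as for arc-transitive graphs.
-/

set_option autoImplicit false

namespace Pool.Agent.Results.MP_763321_co.EdgeTransitiveGraphs

open Pool.Agent.X60.GenTree (BicliqueFree added)
open Pool.Agent.X228.GS Pool.Agent.Y394.AT

/-- The number of common neighbours. -/
noncomputable def codeg {V : Type} (G : SimpleGraph V) (u v : V) : ℕ :=
  {w | G.Adj u w ∧ G.Adj v w}.ncard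

/-- The colouring `κ` of the arcs of `G` (the arc `a b` has the colour `κ a b`) is uniform: arcs of
the same colour see the same, up to the factor `K`, and no colour is rare. -/
structure IsUniform {V ι : Type} (G : SimpleGraph V) (κ : V → V → ι) (r K : ℕ) : Prop where
  /-- the numbers of arcs of colour `j` at two nonisolated vertices are comparable -/
  starts : ∀ u v, (∃ w, G.Adj u w) → (∃ w, G.Adj v w) → ∀ j,
    {w | G.Adj u w ∧ κ u w = j}.ncard ≤ K * {w | G.Adj v w ∧ κ v w = j}.ncard
  /-- the colour of an arc determines the colour of the reverse arc -/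
  reverse : ∀ a b c d, G.Adj a b → G.Adj c d → κ a b = κ c d → κ b a = κ d c
  /-- continuations of colour `j` of two arcs of the same colour to vertices of small codegree -/
  sees : ∀ a b c d, G.Adj a b → G.Adj c d → κ a b = κ c d → ∀ (j : ι) (t : ℕ),
    {w | G.Adj b w ∧ κ b w = j ∧ codeg G a w < t}.ncard ≤
      K * {w | G.Adj d w ∧ κ d w = j ∧ codeg G c w < K * t}.ncard
  /-- the same for the continuations to vertices at distance two -/
  seesFar : ∀ a b c d, G.Adj a b → G.Adj c d → κ a b = κ c d → ∀ (j : ι) (t : ℕ),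
    {w | G.Adj b w ∧ κ b w = j ∧ w ≠ a ∧ ¬ G.Adj a w ∧ codeg G a w < t}.ncard ≤
      K * {w | G.Adj d w ∧ κ d w = j ∧ w ≠ c ∧ ¬ G.Adj c w ∧ codeg G c w < K * t}.ncard
  /-- the numbers of neighbours of `a` not adjacent to `b` are comparable -/
  own : ∀ a b c d, G.Adj a b → G.Adj c d → κ a b = κ c d →
    {w | G.Adj a w ∧ ¬ G.Adj b w}.ncard ≤ K * {w | G.Adj c w ∧ ¬ G.Adj d w}.ncard
  /-- no colour is rare -/
  frequent : ∀ a b, G.Adj a b →
    {w | G.Adj a w}.ncard ≤ r * {w | G.Adj a w ∧ κ a w = κ a b}.ncard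

/-- Amply regular up to the factor `K`. -/
def IsApproxAmplyRegular {V : Type} (G : SimpleGraph V) (K : ℕ) : Prop :=
  ∃ d a c e : ℕ,
    (∀ v, (∃ w, G.Adj v w) → d ≤ {w | G.Adj v w}.ncard ∧ {w | G.Adj v w}.ncard ≤ K * d) ∧
    (∀ u v, G.Adj u v → a ≤ codeg G u v ∧ codeg G u v ≤ K * a) ∧
    (∀ u v w, u ≠ v → ¬ G.Adj u v → G.Adj u w → G.Adj v w →
      c ≤ codeg G u v ∧ codeg G u v ≤ K * c) ∧
    ∀ u v, G.Adj u v → e ≤ {w | G.Adj v w ∧ w ≠ u ∧ ¬ G.Adj u w}.ncard ∧
      {w | G.Adj v w ∧ w ≠ u ∧ ¬ G.Adj u w}.ncard ≤ K * e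

/-- At most `s` orbits of vertices, and for adjacent `u`, `v` in the same orbit the orbit of `v` under
the stabiliser of `u` has at least `1 / r` of the neighbours of `u` in the orbit of `u`. -/
def HasFewOrbits {V : Type} (G : SimpleGraph V) (r s : ℕ) : Prop :=
  (∃ c : V → Fin s, ∀ u v, c u = c v → ∃ φ : G ≃g G, φ u = v) ∧
    ∀ u v, G.Adj u v → (∃ φ : G ≃g G, φ u = v) →
      {w | G.Adj u w ∧ ∃ φ : G ≃g G, φ u = w}.ncard ≤
        r * {w | ∃ φ : G ≃g G, φ u = u ∧ φ v = w}.ncard

/-- Any edge can be mapped to any other edge by an automorphism. -/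
def IsEdgeTransitive {V : Type} (G : SimpleGraph V) : Prop :=
  ∀ a b c d, G.Adj a b → G.Adj c d →
    ∃ φ : G ≃g G, (φ a = c ∧ φ b = d) ∨ (φ a = d ∧ φ b = c)

/-- one of the four kinds of graphs -/
def Tame {V : Type} (G : SimpleGraph V) (r s K : ℕ) : Prop :=
  (∃ (ι : Type) (κ : V → V → ι), IsUniform G κ r K) ∨ IsApproxAmplyRegular G K ∨
    HasFewOrbits G r s ∨ IsEdgeTransitive G

section conv
variable {V ι : Type} [Fintype V] {G : SimpleGraph V} {κ : V → V → ι}

theorem codeg_eq (u v : V) : codeg G u v = cd G u v := by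
  classical
  unfold codeg cd
  rw [← Set.ncard_coe_finset]
  congr 1
  ext w
  simp

theorem nb_ncard (v : V) : {w | G.Adj v w}.ncard = (nb G v).card := by
  rw [← Set.ncard_coe_finset]
  congr 1
  ext w
  simp [mem_nb]

theorem cn_ncard (j : ι) (v : V) : {w | G.Adj v w ∧ κ v w = j}.ncard = (cn G κ j v).card := by
  rw [← Set.ncard_coe_finset]
  congr 1
  ext w
  simp [mem_cn]

theorem qj_ncard (j : ι) (t : ℕ) (a b : V) :
    {w | G.Adj b w ∧ κ b w = j ∧ codeg G a w < t}.ncard = (qj G κ j t a b).card := by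
  classical
  rw [← Set.ncard_coe_finset]
  congr 1
  ext w
  unfold qj
  rw [Finset.coe_filter]
  simp only [Set.mem_ofPred_eq, mem_cn, codeg_eq]
  tauto

theorem lj_ncard (j : ι) (t : ℕ) (a b : V) :
    {w | G.Adj b w ∧ κ b w = j ∧ w ≠ a ∧ ¬ G.Adj a w ∧ codeg G a w < t}.ncard =
      (lj G κ j t a b).card := by
  classical
  rw [← Set.ncard_coe_finset]
  congr 1
  ext w
  unfold lj
  rw [Finset.coe_filter]
  simp only [Set.mem_ofPred_eq, mem_cn, codeg_eq]
  tauto

theorem own_ncard (a b : V) :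
    {w | G.Adj a w ∧ ¬ G.Adj b w}.ncard = (nb G a).card - cd G a b := by
  classical
  have h1 := Finset.card_filter_add_card_filter_not (s := nb G a) (fun y => G.Adj b y)
  have h2 : cd G a b = ((nb G a).filter (fun y => G.Adj b y)).card := by
    unfold cd nb
    rw [Finset.filter_filter]
  have h3 : {w | G.Adj a w ∧ ¬ G.Adj b w}.ncard =
      ((nb G a).filter (fun y => ¬ G.Adj b y)).card := by
    rw [← Set.ncard_coe_finset]
    congr 1
    ext w
    rw [Finset.coe_filter]
    simp [mem_nb]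
  omega

theorem hom_of_uniform {r K : ℕ} (h : IsUniform G κ r K) : Hom G κ (max r 1) (max K 1) where
  deg := by
    intro u v hu hv j
    have h1 := h.starts u v (by
      obtain ⟨w, hw⟩ := hu
      exact ⟨w, (mem_nb G u w).1 hw⟩) (by
      obtain ⟨w, hw⟩ := hv
      exact ⟨w, (mem_nb G v w).1 hw⟩) j
    rw [cn_ncard, cn_ncard] at h1
    exact h1.trans (Nat.mul_le_mul_right _ (le_max_left _ _))
  rev := h.reverse
  lc := by
    classical
    intro a b c d hab hcd heq j t
    have h1 := h.seesFar a b c d hab hcd heq j t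
    rw [lj_ncard, lj_ncard] at h1
    refine h1.trans (Nat.mul_le_mul (le_max_left _ _) (Finset.card_le_card ?_))
    intro w hw
    unfold lj at hw ⊢
    rw [Finset.mem_filter] at hw ⊢
    exact ⟨hw.1, hw.2.1, hw.2.2.1,
      hw.2.2.2.trans_le (Nat.mul_le_mul_right _ (le_max_left _ _))⟩
  qc := by
    classical
    intro a b c d hab hcd heq j t
    have h1 := h.sees a b c d hab hcd heq j t
    rw [qj_ncard, qj_ncard] at h1
    refine h1.trans (Nat.mul_le_mul (le_max_left _ _) (Finset.card_le_card ?_))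
    intro w hw
    unfold qj at hw ⊢
    rw [Finset.mem_filter] at hw ⊢
    exact ⟨hw.1, hw.2.trans_le (Nat.mul_le_mul_right _ (le_max_left _ _))⟩
  cod := by
    intro a b c d hab hcd heq
    have h1 := h.own a b c d hab hcd heq
    rw [own_ncard, own_ncard] at h1
    exact h1.trans (Nat.mul_le_mul_right _ (le_max_left _ _))
  big := by
    intro a b hab
    have h1 := h.frequent a b hab
    rw [nb_ncard, cn_ncard] at h1
    exact h1.trans (Nat.mul_le_mul_right _ (le_max_left _ _))

end conv

/-- Approximately amply regular graphs are uniform with one colour. -/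
theorem uniform_of_amply {V : Type} [Finite V] {G : SimpleGraph V} {K : ℕ}
    (h : IsApproxAmplyRegular G K) : IsUniform G (fun _ _ => ()) 1 (max K 1) := by
  classical
  have : Fintype V := Fintype.ofFinite V
  obtain ⟨d, a₀, c₀, e, hd, ha, hc, he⟩ := h
  set L : ℕ := max K 1 with hL
  have hKL : K ≤ L := le_max_left _ _
  have hL1 : 1 ≤ L := le_max_right _ _
  have hd' : ∀ v w, G.Adj v w → d ≤ {w | G.Adj v w}.ncard ∧ {w | G.Adj v w}.ncard ≤ L * d :=
    fun v w hvw => ⟨(hd v ⟨w, hvw⟩).1, (hd v ⟨w, hvw⟩).2.trans (Nat.mul_le_mul_right _ hKL)⟩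
  have ha' : ∀ u v, G.Adj u v → a₀ ≤ codeg G u v ∧ codeg G u v ≤ L * a₀ :=
    fun u v huv => ⟨(ha u v huv).1, (ha u v huv).2.trans (Nat.mul_le_mul_right _ hKL)⟩
  have hc' : ∀ u v w, u ≠ v → ¬ G.Adj u v → G.Adj u w → G.Adj v w →
      c₀ ≤ codeg G u v ∧ codeg G u v ≤ L * c₀ := fun u v w h1 h2 h3 h4 =>
    ⟨(hc u v w h1 h2 h3 h4).1, (hc u v w h1 h2 h3 h4).2.trans (Nat.mul_le_mul_right _ hKL)⟩
  have he' : ∀ u v, G.Adj u v → e ≤ {w | G.Adj v w ∧ w ≠ u ∧ ¬ G.Adj u w}.ncard ∧
      {w | G.Adj v w ∧ w ≠ u ∧ ¬ G.Adj u w}.ncard ≤ L * e :=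
    fun u v huv => ⟨(he u v huv).1, (he u v huv).2.trans (Nat.mul_le_mul_right _ hKL)⟩
  have hfar : ∀ a b c d, G.Adj a b → G.Adj c d → ∀ t : ℕ,
      {w | G.Adj b w ∧ w ≠ a ∧ ¬ G.Adj a w ∧ codeg G a w < t}.ncard ≤
        L * {w | G.Adj d w ∧ w ≠ c ∧ ¬ G.Adj c w ∧ codeg G c w < L * t}.ncard := by
    intro a b c d hab hcd t
    by_cases ht : t ≤ c₀
    · have : {w | G.Adj b w ∧ w ≠ a ∧ ¬ G.Adj a w ∧ codeg G a w < t} = ∅ := by
        rw [Set.eq_empty_iff_forall_notMem]
        rintro w ⟨h1, h2, h3, h4⟩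
        have := (hc' a w b (Ne.symm h2) h3 hab h1.symm).1
        omega
      rw [this, Set.ncard_empty]
      exact Nat.zero_le _
    · push Not at ht
      calc {w | G.Adj b w ∧ w ≠ a ∧ ¬ G.Adj a w ∧ codeg G a w < t}.ncard ≤
            {w | G.Adj b w ∧ w ≠ a ∧ ¬ G.Adj a w}.ncard :=
            Set.ncard_le_ncard (fun w hw => ⟨hw.1, hw.2.1, hw.2.2.1⟩) (Set.toFinite _)
        _ ≤ L * e := (he' a b hab).2
        _ ≤ L * {w | G.Adj d w ∧ w ≠ c ∧ ¬ G.Adj c w}.ncard :=
            Nat.mul_le_mul_left _ (he' c d hcd).1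
        _ ≤ L * {w | G.Adj d w ∧ w ≠ c ∧ ¬ G.Adj c w ∧ codeg G c w < L * t}.ncard := by
            refine Nat.mul_le_mul_left _ (Set.ncard_le_ncard ?_ (Set.toFinite _))
            rintro w ⟨h1, h2, h3⟩
            refine ⟨h1, h2, h3, ?_⟩
            refine lt_of_le_of_lt (hc' c w d (Ne.symm h2) h3 hcd h1.symm).2 ?_
            exact Nat.mul_lt_mul_of_pos_left ht hL1
  have hnear : ∀ a b c d, G.Adj a b → G.Adj c d → ∀ t : ℕ,
      {w | G.Adj b w ∧ G.Adj a w ∧ codeg G a w < t}.ncard ≤
        L * {w | G.Adj d w ∧ G.Adj c w ∧ codeg G c w < L * t}.ncard := by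
    intro a b c d hab hcd t
    by_cases ht : t ≤ a₀
    · have : {w | G.Adj b w ∧ G.Adj a w ∧ codeg G a w < t} = ∅ := by
        rw [Set.eq_empty_iff_forall_notMem]
        rintro w ⟨h1, h2, h3⟩
        have := (ha' a w h2).1
        omega
      rw [this, Set.ncard_empty]
      exact Nat.zero_le _
    · push Not at ht
      calc {w | G.Adj b w ∧ G.Adj a w ∧ codeg G a w < t}.ncard ≤ codeg G a b := by
            unfold codeg
            exact Set.ncard_le_ncard (fun w hw => ⟨hw.2.1, hw.1⟩) (Set.toFinite _)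
        _ ≤ L * a₀ := (ha' a b hab).2
        _ ≤ L * codeg G c d := Nat.mul_le_mul_left _ (ha' c d hcd).1
        _ ≤ L * {w | G.Adj d w ∧ G.Adj c w ∧ codeg G c w < L * t}.ncard := by
            refine Nat.mul_le_mul_left _ ?_
            unfold codeg
            refine Set.ncard_le_ncard ?_ (Set.toFinite _)
            rintro w ⟨h1, h2⟩
            refine ⟨h2, h1, lt_of_le_of_lt (ha' c w h1).2 ?_⟩
            exact Nat.mul_lt_mul_of_pos_left ht hL1
  have hself : ∀ a b c d, G.Adj a b → G.Adj c d → ∀ t : ℕ,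
      {w | w = a ∧ codeg G a w < t}.ncard ≤ L * {w | w = c ∧ codeg G c w < L * t}.ncard := by
    intro a b c d' hab hcd t
    by_cases ht : codeg G a a < t
    · have h1 : {w | w = a ∧ codeg G a w < t} ⊆ {a} := fun w hw => hw.1
      have h2 : codeg G c c < L * t := by
        have e1 : ∀ v, codeg G v v = {w | G.Adj v w}.ncard := by
          intro v
          unfold codeg
          congr 1
          ext w
          simp
        rw [e1] at ht ⊢
        calc {w | G.Adj c w}.ncard ≤ L * d := (hd' c d' hcd).2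
          _ ≤ L * {w | G.Adj a w}.ncard := Nat.mul_le_mul_left _ (hd' a b hab).1
          _ < L * t := Nat.mul_lt_mul_of_pos_left ht hL1
      have h3 : {w | w = c ∧ codeg G c w < L * t} = {c} := by
        ext w
        constructor
        · exact fun hw => hw.1
        · rintro rfl
          exact ⟨rfl, h2⟩
      rw [h3, Set.ncard_singleton, mul_one]
      calc {w | w = a ∧ codeg G a w < t}.ncard ≤ ({a} : Set V).ncard :=
            Set.ncard_le_ncard h1 (Set.toFinite _)
        _ = 1 := Set.ncard_singleton _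
        _ ≤ L := hL1
    · have : {w | w = a ∧ codeg G a w < t} = ∅ := by
        rw [Set.eq_empty_iff_forall_notMem]
        rintro w ⟨rfl, h2⟩
        exact ht h2
      rw [this, Set.ncard_empty]
      exact Nat.zero_le _
  refine
    { starts := ?_
      reverse := fun _ _ _ _ _ _ _ => rfl
      sees := ?_
      seesFar := ?_
      own := ?_
      frequent := ?_ }
  · rintro u v ⟨u', hu'⟩ ⟨v', hv'⟩ j
    have e1 : ∀ x, {w | G.Adj x w ∧ () = j} = {w | G.Adj x w} := by
      intro x
      ext w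
      simp
    rw [e1, e1]
    exact (hd' u u' hu').2.trans (Nat.mul_le_mul_left _ (hd' v v' hv').1)
  · intro a b c d hab hcd _ j t
    have e1 : ∀ x y (T : ℕ), {w | G.Adj y w ∧ () = j ∧ codeg G x w < T} =
        {w | G.Adj y w ∧ codeg G x w < T} := by
      intro x y T
      ext w
      simp
    rw [e1, e1]
    -- three parts
    have e2 : {w | G.Adj b w ∧ codeg G a w < t} =
        ({w | G.Adj b w ∧ w ≠ a ∧ ¬ G.Adj a w ∧ codeg G a w < t} ∪
          {w | G.Adj b w ∧ G.Adj a w ∧ codeg G a w < t}) ∪ {w | w = a ∧ codeg G a w < t} := by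
      ext w
      simp only [Set.mem_union, Set.mem_ofPred_eq]
      constructor
      · rintro ⟨h1, h2⟩
        by_cases h3 : w = a
        · exact Or.inr ⟨h3, h2⟩
        · by_cases h4 : G.Adj a w
          · exact Or.inl (Or.inr ⟨h1, h4, h2⟩)
          · exact Or.inl (Or.inl ⟨h1, h3, h4, h2⟩)
      · rintro ((⟨h1, _, _, h2⟩ | ⟨h1, _, h2⟩) | ⟨rfl, h2⟩)
        · exact ⟨h1, h2⟩
        · exact ⟨h1, h2⟩
        · exact ⟨hab.symm, h2⟩
    have e3 : ({w | G.Adj d w ∧ w ≠ c ∧ ¬ G.Adj c w ∧ codeg G c w < L * t} ∪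
          {w | G.Adj d w ∧ G.Adj c w ∧ codeg G c w < L * t}) ∪
          {w | w = c ∧ codeg G c w < L * t} ⊆ {w | G.Adj d w ∧ codeg G c w < L * t} := by
      intro w hw
      simp only [Set.mem_union, Set.mem_ofPred_eq] at hw ⊢
      rcases hw with (⟨h1, _, _, h2⟩ | ⟨h1, _, h2⟩) | ⟨h1, h2⟩
      · exact ⟨h1, h2⟩
      · exact ⟨h1, h2⟩
      · rw [h1] at h2 ⊢
        exact ⟨hcd.symm, h2⟩
    have hdis1 : Disjoint {w | G.Adj d w ∧ w ≠ c ∧ ¬ G.Adj c w ∧ codeg G c w < L * t}
        {w | G.Adj d w ∧ G.Adj c w ∧ codeg G c w < L * t} := by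
      rw [Set.disjoint_left]
      rintro w ⟨_, _, h1, _⟩ ⟨_, h2, _⟩
      exact h1 h2
    have hdis2 : Disjoint ({w | G.Adj d w ∧ w ≠ c ∧ ¬ G.Adj c w ∧ codeg G c w < L * t} ∪
          {w | G.Adj d w ∧ G.Adj c w ∧ codeg G c w < L * t})
          {w | w = c ∧ codeg G c w < L * t} := by
      rw [Set.disjoint_left]
      rintro w (⟨_, h1, _, _⟩ | ⟨_, h2, _⟩) ⟨h3, _⟩
      · exact h1 h3
      · rw [h3] at h2
        exact G.loopless.irrefl _ h2
    have h4 := Set.ncard_le_ncard e3 (Set.toFinite _)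
    rw [Set.ncard_union_eq hdis2 (Set.toFinite _) (Set.toFinite _),
      Set.ncard_union_eq hdis1 (Set.toFinite _) (Set.toFinite _)] at h4
    have h5 : {w | G.Adj b w ∧ codeg G a w < t}.ncard ≤
        ({w | G.Adj b w ∧ w ≠ a ∧ ¬ G.Adj a w ∧ codeg G a w < t}.ncard +
          {w | G.Adj b w ∧ G.Adj a w ∧ codeg G a w < t}.ncard) +
          {w | w = a ∧ codeg G a w < t}.ncard := by
      rw [e2]
      refine (Set.ncard_union_le _ _).trans ?_
      exact Nat.add_le_add_right (Set.ncard_union_le _ _) _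
    calc {w | G.Adj b w ∧ codeg G a w < t}.ncard ≤ _ := h5
      _ ≤ (L * {w | G.Adj d w ∧ w ≠ c ∧ ¬ G.Adj c w ∧ codeg G c w < L * t}.ncard +
          L * {w | G.Adj d w ∧ G.Adj c w ∧ codeg G c w < L * t}.ncard) +
          L * {w | w = c ∧ codeg G c w < L * t}.ncard :=
          Nat.add_le_add (Nat.add_le_add (hfar a b c d hab hcd t) (hnear a b c d hab hcd t))
            (hself a b c d hab hcd t)
      _ = L * (({w | G.Adj d w ∧ w ≠ c ∧ ¬ G.Adj c w ∧ codeg G c w < L * t}.ncard +
          {w | G.Adj d w ∧ G.Adj c w ∧ codeg G c w < L * t}.ncard) +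
          {w | w = c ∧ codeg G c w < L * t}.ncard) := by ring
      _ ≤ L * {w | G.Adj d w ∧ codeg G c w < L * t}.ncard := Nat.mul_le_mul_left _ h4
  · intro a b c d hab hcd _ j t
    have e1 : ∀ x y (T : ℕ), {w | G.Adj y w ∧ () = j ∧ w ≠ x ∧ ¬ G.Adj x w ∧ codeg G x w < T} =
        {w | G.Adj y w ∧ w ≠ x ∧ ¬ G.Adj x w ∧ codeg G x w < T} := by
      intro x y T
      ext w
      simp
    rw [e1, e1]
    exact hfar a b c d hab hcd t
  · intro a b c d hab hcd _
    have e1 : ∀ x y, G.Adj x y → {w | G.Adj x w ∧ ¬ G.Adj y w}.ncard =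
        {w | G.Adj x w ∧ w ≠ y ∧ ¬ G.Adj y w}.ncard + 1 := by
      intro x y hxy
      have : {w | G.Adj x w ∧ ¬ G.Adj y w} =
          insert y {w | G.Adj x w ∧ w ≠ y ∧ ¬ G.Adj y w} := by
        ext w
        simp only [Set.mem_ofPred_eq, Set.mem_insert_iff]
        constructor
        · rintro ⟨h1, h2⟩
          by_cases h3 : w = y
          · exact Or.inl h3
          · exact Or.inr ⟨h1, h3, h2⟩
        · rintro (rfl | ⟨h1, _, h2⟩)
          · exact ⟨hxy, G.loopless.irrefl _⟩
          · exact ⟨h1, h2⟩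
      rw [this, Set.ncard_insert_of_notMem (fun h => h.2.1 rfl) (Set.toFinite _)]
    rw [e1 a b hab, e1 c d hcd]
    have h1 := (he' b a hab.symm).2
    have h2 := (he' d c hcd.symm).1
    calc {w | G.Adj a w ∧ w ≠ b ∧ ¬ G.Adj b w}.ncard + 1 ≤ L * e + L * 1 := by omega
      _ ≤ L * {w | G.Adj c w ∧ w ≠ d ∧ ¬ G.Adj d w}.ncard + L * 1 :=
          Nat.add_le_add_right (Nat.mul_le_mul_left _ h2) _
      _ = L * ({w | G.Adj c w ∧ w ≠ d ∧ ¬ G.Adj d w}.ncard + 1) := by ring
  · intro a b _
    rw [one_mul]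
    exact Set.ncard_le_ncard (fun w hw => ⟨hw, rfl⟩) (Set.toFinite _)

/-- the four kinds of graphs -/
theorem tame_bound (m : ℕ) (F : SimpleGraph (Fin m)) (hF : F.IsAcyclic) (r s K : ℕ) :
    ∃ f : ℕ → ℕ, ∀ (V : Type) [Finite V] (G : SimpleGraph V), Tame G r s K →
      ¬ F.IsIndContained G → G.chromaticNumber ≤ f G.cliqueNum := by
  choose! C1 hC1 using fun k (hk : 1 ≤ k) => exists_color m F hF k hk (max r 1) (max K 1)
    (le_max_right _ _) (le_max_right _ _)
  choose! C2 hC2 using fun k (hk : 1 ≤ k) => exists_color m F hF k hk (max 1 1)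
    (max (max K 1) 1) (le_max_right _ _) (le_max_right _ _)
  choose! C3 hC3 using fun k (hk : 1 ≤ k) => color_orbits m F hF k hk (max r 1) s
    (le_max_right _ _)
  choose! C4 hC4 using fun k (hk : 1 ≤ k) => color_orbits m F hF k hk 2 3 (by norm_num)
  refine ⟨fun n => (C1 (max n 1) + C2 (max n 1)) + (C3 (max n 1) + C4 (max n 1)), ?_⟩
  intro V _ G h hFG
  have : Fintype V := Fintype.ofFinite V
  have hcl : G.CliqueFree (max G.cliqueNum 1 + 1) := by
    intro s hs
    have h1 := hs.isClique.card_le_cliqueNum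
    rw [hs.card_eq] at h1
    have h2 := le_max_left G.cliqueNum 1
    omega
  have hemp : IsEmpty (F ↪g G) := ⟨fun e => hFG ⟨e⟩⟩
  have hn : 1 ≤ max G.cliqueNum 1 := le_max_right _ _
  have hcol : G.Colorable ((C1 (max G.cliqueNum 1) + C2 (max G.cliqueNum 1)) +
      (C3 (max G.cliqueNum 1) + C4 (max G.cliqueNum 1))) := by
    rcases h with ⟨ι, κ, h⟩ | h | h | h
    · exact (hC1 _ hn V ι G κ (hom_of_uniform h) hcl hemp).mono (by omega)
    · exact (hC2 _ hn V Unit G _ (hom_of_uniform (uniform_of_amply h)) hcl hemp).mono (by omega)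
    · refine (hC3 _ hn V G ⟨h.1, fun u v huv hsame => ?_⟩ hcl hemp).mono (by omega)
      exact (h.2 u v huv hsame).trans (Nat.mul_le_mul_right _ (le_max_left _ _))
    · exact (hC4 _ hn V G (few_of_edgeTrans h) hcl hemp).mono (by omega)
  exact hcol.chromaticNumber_le

/-- **The Gyárfás–Sumner conjecture holds for the graphs of the four kinds, and if the edges of a
`K_{t,t}`-free graph are added.** -/
theorem result (m : ℕ) (F : SimpleGraph (Fin m)) (hF : F.IsAcyclic) (r s K t : ℕ) :
    ∃ f : ℕ → ℕ, ∀ (V : Type) [Finite V] (G G₁ : SimpleGraph V), Tame G₁ r s K →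
      (G = G₁ ∨ (G₁ ≤ G ∧ BicliqueFree (G \ G₁) t)) →
      ¬ F.IsIndContained G → G.chromaticNumber ≤ f G.cliqueNum := by
  obtain ⟨f0, hf0⟩ := tame_bound m F hF r s K
  obtain ⟨m', F', f, hF', hf⟩ := added F hF t
  obtain ⟨g, hg⟩ := tame_bound m' F' hF' r s K
  refine ⟨fun k => f0 k + f k * (Finset.range (k + 1)).sup g, ?_⟩
  intro V _ G G₁ hG₁ hor hFG
  rcases hor with rfl | ⟨hle, hfree⟩
  · refine (hf0 V G hG₁ hFG).trans ?_
    push_cast
    exact le_self_add
  · obtain ⟨h1, h2⟩ := hf _ G G₁ hle hfree hFG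
    have h3 := hg V G₁ hG₁ h1
    have h4 : G₁.cliqueNum ≤ G.cliqueNum := by
      have : Fintype V := Fintype.ofFinite V
      obtain ⟨s, hs⟩ := G₁.exists_isNClique_cliqueNum
      have h5 := (hs.isClique.mono hle).card_le_cliqueNum
      rw [hs.card_eq] at h5
      exact h5
    have h5 : g G₁.cliqueNum ≤ (Finset.range (G.cliqueNum + 1)).sup g :=
      Finset.le_sup (f := g) (Finset.mem_range.2 (by omega))
    refine h2.trans ?_
    have h6 : G₁.chromaticNumber ≤ (((Finset.range (G.cliqueNum + 1)).sup g : ℕ) : ℕ∞) :=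
      h3.trans (by exact_mod_cast h5)
    calc (f G.cliqueNum : ℕ∞) * G₁.chromaticNumber ≤
          (f G.cliqueNum : ℕ∞) * (((Finset.range (G.cliqueNum + 1)).sup g : ℕ) : ℕ∞) := by
          gcongr
      _ ≤ _ := by
          push_cast
          exact le_add_self

end Pool.Agent.Results.MP_763321_co.EdgeTransitiveGraphs
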