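import Pool.Agent.X42.GSO.Orbits

/-!
# The Gyárfás–Sumner conjecture for graphs with few orbits under an abelian group

Let `G₁` be a finite graph whose vertices can be divided into at most `s` classes each of which
induces a Cayley graph of a finite abelian group (`IsCayleyUnion G₁ 0 s`); the edges between the
classes are arbitrary.  Let `G` arise from `G₁` by adding the edges of a `K_{t,t}`-free graph.

1. If `G` has no `K₄` and no induced subgraph `F`, a forest, then `χ(G) ≤ C(F, s, t)`.
2. If the exponents of the groups divide `r ≥ 1` and `G` has no induced `F`, then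
   `χ(G) ≤ f(ω(G))`, where `f` depends on `F`, `r`, `s`, `t`.
3. Examples of such graphs `G₁`: the graphs which have a commutative group of automorphisms with at
   most `s` orbits of vertices, for example the Cayley graphs of all finite groups with a commutative
   subgroup of index at most `s` (such as dihedral groups for `s = 2`).

Proof.  By `Pool.Agent.X60.GenTree.added` there is a forest `F'` which is not induced in `G₁`, and
`χ(G) = O(χ(G₁))`.  So `F'` is not induced in the Cayley graphs in `G₁`, and these are colourable by
the theorems on induced cubes in Cayley graphs of abelian groups.  An orbit of a commutative group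
`A` of automorphisms is the Cayley graph of `A` modulo the stabiliser.
-/

set_option autoImplicit false

namespace Pool.Agent.Results.MP_763321_co.FewAbelianOrbits

open Pool.Agent.X60.GenTree (BicliqueFree)
open Pool.Agent.X42.GSO (IsCayleyUnion)

theorem result :
    -- (1) clique number at most three
    (∀ (m : ℕ) (F : SimpleGraph (Fin m)), F.IsAcyclic → ∀ s t : ℕ, ∃ C : ℕ,
      ∀ (V : Type) [Finite V] (G G₁ : SimpleGraph V), IsCayleyUnion G₁ 0 s → G₁ ≤ G →
        BicliqueFree (G \ G₁) t → G.CliqueFree 4 → ¬ F.IsIndContained G → G.Colorable C) ∧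
    -- (2) bounded exponent
    (∀ (m : ℕ) (F : SimpleGraph (Fin m)), F.IsAcyclic → ∀ r s t : ℕ, 1 ≤ r → ∃ f : ℕ → ℕ,
      ∀ (V : Type) [Finite V] (G G₁ : SimpleGraph V), IsCayleyUnion G₁ r s → G₁ ≤ G →
        BicliqueFree (G \ G₁) t → ¬ F.IsIndContained G → G.chromaticNumber ≤ f G.cliqueNum) ∧
    -- (3) graphs with few orbits under a commutative group of automorphisms
    (∀ (V : Type) [Finite V] (G : SimpleGraph V) (A : Type) [CommGroup A] [MulAction A V]
      (r s : ℕ), (∀ (g : A) (u v : V), G.Adj u v → G.Adj (g • u) (g • v)) →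
        (∀ g : A, g ^ r = 1) → Nat.card (MulAction.orbitRel.Quotient A V) ≤ s →
        IsCayleyUnion G r s) ∧
    -- (4) Cayley graphs of groups with a commutative subgroup of small index
    (∀ (Γ : Type) [Group Γ] [Finite Γ] (H : Subgroup Γ) (r s : ℕ),
      (∀ a ∈ H, ∀ b ∈ H, a * b = b * a) → (∀ h ∈ H, h ^ r = 1) → H.index ≤ s →
        ∀ S : Set Γ, IsCayleyUnion (SimpleGraph.mulCayley S) r s) :=
  ⟨fun _ F hF s t => Pool.Agent.X42.GSO.gs_four F hF s t,
    fun _ F hF r s t hr => Pool.Agent.X42.GSO.gs_exp F hF r s t hr,
    fun _ _ G _ _ _ r s hG hr hs => Pool.Agent.X42.GSO.union_of_action G hG r s hr hs,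
    fun _ _ _ H r s hc hr hs S => Pool.Agent.X42.GSO.union_of_subgroup H r s hc hr hs S⟩

end Pool.Agent.Results.MP_763321_co.FewAbelianOrbits
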